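import Mathlib
import Pool.Agent.R639.CT.Defs

/-!
Convergence actions, Cannon-Thurston maps to compacta and visual metrics (definitions).

Word-hyperbolic groups and their Gromov boundaries (sequential model) are defined in
`Pool.Agent.H322R3.HypDefs`: for a group with finite generating set `S`, `wlen S` is the word
length, `gprod S w x y` the Gromov product of `x, y` based at `w`, `IsHyperbolic S` the four point
condition, `InfSeq S` the sequences converging at infinity, `Boundary S` the Gromov boundary and
`bmk S x` the boundary point defined by `x`.  `ConvTo S x ξ` (convergence of the sequence `x` of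
group elements to `ξ`) and `hausdorffDim` are defined in `Pool.Agent.R639.CT.Defs`.
-/

set_option autoImplicit false

namespace Pool.Agent.W2helper1.CTL

open Filter Topology Pool.Agent.H322R3.Hyp Pool.Agent.R639.CT

/-- The action of `H` on the space of distinct triples of `Z` is properly discontinuous: for every
compact set `K` of distinct triples only finitely many `h` satisfy `hK ∩ K ≠ ∅`. -/
def ProperOnTriples (H Z : Type*) [Group H] [TopologicalSpace Z] [MulAction H Z] : Prop :=
  ∀ K : Set (Z × Z × Z), IsCompact K →
    (∀ p ∈ K, p.1 ≠ p.2.1 ∧ p.1 ≠ p.2.2 ∧ p.2.1 ≠ p.2.2) →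
    {h : H | ∃ p ∈ K, (h • p.1, h • p.2.1, h • p.2.2) ∈ K}.Finite

/-- `Z` is a metrizable compactum on which `H` acts by homeomorphisms as a convergence group, and
the action is non-elementary; the latter is expressed by: no `H`-orbit is finite (in particular
there is no invariant subset with one or two points, so the limit set is infinite). -/
structure IsNonElemConvergence (H Z : Type*) [Group H] [TopologicalSpace Z] [MulAction H Z] :
    Prop where
  compact : CompactSpace Z
  metrizable : TopologicalSpace.MetrizableSpace Z
  continuous_smul : ∀ h : H, Continuous (fun z : Z => h • z)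
  proper : ProperOnTriples H Z
  orbit_infinite : ∀ z : Z, (MulAction.orbit H z).Infinite

/-- `f : ∂H → Z` is a Cannon-Thurston map with base point `z₀ ∈ Z`: the map `H ∪ ∂H → H ∪ Z`
given by `h ↦ h z₀` on `H` and by `f` on `∂H` is continuous at the points of `∂H`, i.e. `f` is
continuous and `x n z₀ → f ξ` whenever `x` is a sequence in `H` which converges to `ξ ∈ ∂H`. -/
structure IsCTMap {H Z : Type*} [Group H] [TopologicalSpace Z] [MulAction H Z] (S : Set H)
    (z₀ : Z) (f : Boundary S → Z) : Prop where
  continuous : Continuous f
  tendsto : ∀ (x : ℕ → H) (ξ : Boundary S), ConvTo S x ξ →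
    Tendsto (fun n => x n • z₀) atTop (𝓝 (f ξ))

/-- `m` is a visual metric with parameter `a` on `∂H = ∂X`, where `X` is the Cayley graph of `H`
with respect to `S` and the base point is `1`: up to a multiplicative constant the distance of
`ξ ≠ η` is `a ^ (-(ξ | η))`, where `(ξ | η)` is given by the Gromov products of the `x i` and `y j`
with large `i, j`, for sequences `x → ξ`, `y → η`. -/
def IsVisualCayley {H : Type*} [Group H] (S : Set H) (a : ℝ) (m : MetricSpace (Boundary S)) :
    Prop :=
  ∃ C : ℝ, 0 < C ∧ ∀ x y : InfSeq S, bmk S x ≠ bmk S y → ∃ N : ℕ, ∀ i j, N ≤ i → N ≤ j →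
    C⁻¹ * a ^ (-(gprod S 1 (x.1 i) (y.1 j))) ≤ m.dist (bmk S x) (bmk S y) ∧
    m.dist (bmk S x) (bmk S y) ≤ C * a ^ (-(gprod S 1 (x.1 i) (y.1 j)))

/-- The set of endpoints of the Cannon-Thurston lamination of `f : ∂H → Z`. -/
def endpoints {B Z : Type*} (f : B → Z) : Set B := {p | ∃ q, p ≠ q ∧ f p = f q}

end Pool.Agent.W2helper1.CTL
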