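import Mathlib
import Pool.Agent.R639.CT.Free
import Pool.Agent.W2helper1.CTL.Defs

/-!
The walls of the free group of rank three given by the edges with label `c`, and the closure `Z`
of the orbit map `s` in the space of functions on the walls.
-/

set_option autoImplicit false

namespace Pool.Agent.W2helper1.CTL

open Filter Topology Pool.Agent.H322R3.Hyp Pool.Agent.R639.CT FreeGroup

/-- The free group of rank three. -/
abbrev F3 : Type := FreeGroup (Fin 3)

lemma clB : Subgroup.closure (basis 3) = ⊤ := closure_free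

/-- The first letter of `u` is `c` (the third generator). -/
noncomputable def sig (u : F3) : Bool := decide (u.toWord.head? = some ((2 : Fin 3), true))

lemma sig_eq_true (u : F3) : sig u = true ↔ u.toWord.head? = some ((2 : Fin 3), true) := by
  simp [sig]

lemma head_of_lcp {β : Type*} [DecidableEq β] {l m : List β} (h : 1 ≤ lcp l m) :
    l.head? = m.head? := by
  cases l with
  | nil => simp [lcp_nil_left] at h
  | cons a l =>
    cases m with
    | nil => simp [lcp_nil_right] at h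
    | cons b m =>
      rw [lcp_cons_cons] at h
      split at h
      · next hab => simp [hab]
      · simp at h

lemma sig_of_gprod {x y : F3} (h : 1 ≤ gprod (basis 3) 1 x y) : sig x = sig y := by
  have h1 : gprod (basis 3) 1 x y = lcp x.toWord y.toWord := gprod_free x y
  rw [h1] at h
  have h2 : 1 ≤ lcp x.toWord y.toWord := by exact_mod_cast h
  unfold sig
  rw [head_of_lcp h2]

/-- The side of the wall `g` (the edge from `g` to `gc`) on which `h` lies. -/
noncomputable def s (h : F3) (g : F3) : Bool := sig (g⁻¹ * h)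

lemma s_eq_of_gprod {x y g : F3} (h : (wlen (basis 3) g : ℝ) + 1 ≤ gprod (basis 3) 1 x y) :
    s x g = s y g := by
  unfold s
  apply sig_of_gprod
  have h1 := gprod_translate clB g⁻¹ x y
  rw [wlen_inv clB] at h1
  linarith

lemma gprod_of_sep {x y g : F3} (h : s x g ≠ s y g) :
    gprod (basis 3) 1 x y ≤ (wlen (basis 3) g : ℝ) + 1 := by
  by_contra hc
  push Not at hc
  exact h (s_eq_of_gprod hc.le)

lemma s_mul (k h g : F3) : s (k * h) g = s h (k⁻¹ * g) := by
  unfold s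
  congr 1
  group

/-- The compactum `Z`. -/
def Zset : Set (F3 → Bool) := closure (Set.range s)

/-- The compactum `Z`. -/
abbrev Zc : Type := Zset

lemma shift_continuous (k : F3) : Continuous (fun z : F3 → Bool => fun g => z (k⁻¹ * g)) :=
  continuous_pi fun g => continuous_apply (k⁻¹ * g)

lemma shift_mem (k : F3) {z : F3 → Bool} (hz : z ∈ Zset) : (fun g => z (k⁻¹ * g)) ∈ Zset := by
  refine map_mem_closure (shift_continuous k) hz ?_
  rintro _ ⟨h, rfl⟩
  exact ⟨k * h, by ext g; rw [s_mul]⟩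

noncomputable instance : MulAction F3 Zc where
  smul k z := ⟨fun g => z.1 (k⁻¹ * g), shift_mem k z.2⟩
  one_smul z := by
    apply Subtype.ext
    funext g
    change z.1 (1⁻¹ * g) = z.1 g
    simp
  mul_smul k l z := by
    apply Subtype.ext
    funext g
    change z.1 ((k * l)⁻¹ * g) = z.1 (l⁻¹ * (k⁻¹ * g))
    rw [mul_inv_rev, mul_assoc]

lemma smul_apply (k : F3) (z : Zc) (g : F3) : (k • z).1 g = z.1 (k⁻¹ * g) := rfl

/-- The point of `Z` given by `h`. -/
noncomputable def pt (h : F3) : Zc := ⟨s h, subset_closure ⟨h, rfl⟩⟩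

lemma smul_pt (k h : F3) : k • pt h = pt (k * h) := by
  apply Subtype.ext
  funext g
  rw [smul_apply]
  exact (s_mul k h g).symm

/-- The base point `z₀`. -/
noncomputable def z0 : Zc := pt 1

lemma smul_z0 (k : F3) : k • z0 = pt k := by rw [z0, smul_pt, mul_one]

instance : CompactSpace Zc := isCompact_iff_compactSpace.1 isClosed_closure.isCompact

lemma approx (z : Zc) (I : Set F3) (hI : I.Finite) : ∃ h : F3, ∀ g ∈ I, s h g = z.1 g := by
  have hopen : IsOpen {w : F3 → Bool | ∀ g ∈ I, w g = z.1 g} := by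
    have : {w : F3 → Bool | ∀ g ∈ I, w g = z.1 g} = ⋂ g ∈ I, {w | w g = z.1 g} := by
      ext w; simp
    rw [this]
    refine hI.isOpen_biInter fun g _ => ?_
    exact (isOpen_discrete ({z.1 g} : Set Bool)).preimage
      (continuous_apply (A := fun _ : F3 => Bool) g)
  obtain ⟨_, h1, ⟨h, rfl⟩⟩ := mem_closure_iff.1 z.2 _ hopen (fun g _ => rfl)
  exact ⟨h, h1⟩

lemma smul_continuous (k : F3) : Continuous (fun z : Zc => k • z) :=
  Continuous.subtype_mk ((shift_continuous k).comp continuous_subtype_val) _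

lemma gprod_inv' (v x : F3) : gprod (basis 3) 1 (v⁻¹ * x) v⁻¹ =
    wlen (basis 3) v - gprod (basis 3) 1 x v := by
  rw [gprod_one clB, gprod_one clB]
  have e1 : (v⁻¹ * x)⁻¹ * v⁻¹ = x⁻¹ := by group
  have e2 : v⁻¹ * x = (x⁻¹ * v)⁻¹ := by group
  rw [e1, e2, wlen_inv clB, wlen_inv clB, wlen_inv clB]
  ring

/-- If `h` moves three points which pairwise are separated near `1` to three such points then `h`
is short. -/
lemma len_le {x1 x2 x3 h : F3} {R : ℝ}
    (a12 : gprod (basis 3) 1 x1 x2 ≤ R) (a13 : gprod (basis 3) 1 x1 x3 ≤ R)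
    (a23 : gprod (basis 3) 1 x2 x3 ≤ R)
    (b12 : gprod (basis 3) 1 (h * x1) (h * x2) ≤ R) (b13 : gprod (basis 3) 1 (h * x1) (h * x3) ≤ R)
    (b23 : gprod (basis 3) 1 (h * x2) (h * x3) ≤ R) : (wlen (basis 3) h : ℝ) ≤ 2 * R := by
  have key : ∀ x : F3, gprod (basis 3) 1 (h * x) h =
      wlen (basis 3) h - gprod (basis 3) 1 x h⁻¹ := by
    intro x
    have := gprod_inv' h⁻¹ x
    rw [inv_inv, wlen_inv clB] at this
    exact this
  have hyp : ∀ x y z : F3, min (gprod (basis 3) 1 x y) (gprod (basis 3) 1 y z) ≤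
      gprod (basis 3) 1 x z := by
    intro x y z
    have := hyp_free x y z
    rw [sub_zero] at this
    exact this
  have sym : ∀ x y : F3, gprod (basis 3) 1 x y = gprod (basis 3) 1 y x :=
    fun x y => gprod_symm clB x y
  have k1 := key x1
  have k2 := key x2
  have k3 := key x3
  have A : ∀ x y : F3, gprod (basis 3) 1 x y ≤ R →
      gprod (basis 3) 1 x h⁻¹ ≤ R ∨ gprod (basis 3) 1 y h⁻¹ ≤ R := by
    intro x y hxy
    have := hyp x h⁻¹ y
    rw [sym h⁻¹ y] at this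
    rcases min_le_iff.1 (this.trans hxy) with h | h
    · exact Or.inl h
    · exact Or.inr h
  have B : ∀ x y : F3, gprod (basis 3) 1 (h * x) (h * y) ≤ R →
      gprod (basis 3) 1 (h * x) h ≤ R ∨ gprod (basis 3) 1 (h * y) h ≤ R := by
    intro x y hxy
    have := hyp (h * x) h (h * y)
    rw [sym h (h * y)] at this
    rcases min_le_iff.1 (this.trans hxy) with h | h
    · exact Or.inl h
    · exact Or.inr h
  rcases A _ _ a12 with p | p <;> rcases A _ _ a13 with q | q <;> rcases A _ _ a23 with r | r <;>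
  rcases B _ _ b12 with p' | p' <;> rcases B _ _ b13 with q' | q' <;>
  rcases B _ _ b23 with r' | r' <;> linarith

lemma ball_finite' (n : ℕ) : {g : F3 | wlen (basis 3) g ≤ n}.Finite :=
  ball_finite clB (Set.finite_range _) n

theorem proper : ProperOnTriples F3 Zc := by
  intro K hK hKd
  -- separating walls
  let U : F3 × F3 × F3 → Set (Zc × Zc × Zc) := fun g =>
    {p | p.1.1 g.1 ≠ p.2.1.1 g.1 ∧ p.1.1 g.2.1 ≠ p.2.2.1 g.2.1 ∧ p.2.1.1 g.2.2 ≠ p.2.2.1 g.2.2}
  have hU : ∀ g, IsOpen (U g) := by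
    intro g
    have hc1 : ∀ g : F3, Continuous (fun p : Zc × Zc × Zc => p.1.1 g) := fun g =>
      (continuous_apply g).comp (continuous_subtype_val.comp continuous_fst)
    have hc2 : ∀ g : F3, Continuous (fun p : Zc × Zc × Zc => p.2.1.1 g) := fun g =>
      (continuous_apply g).comp (continuous_subtype_val.comp (continuous_fst.comp continuous_snd))
    have hc3 : ∀ g : F3, Continuous (fun p : Zc × Zc × Zc => p.2.2.1 g) := fun g =>
      (continuous_apply g).comp (continuous_subtype_val.comp (continuous_snd.comp continuous_snd))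
    have hne : ∀ {a b : Zc × Zc × Zc → Bool}, Continuous a → Continuous b →
        IsOpen {p | a p ≠ b p} := fun ha hb => isOpen_ne_fun ha hb
    exact (hne (hc1 _) (hc2 _)).inter ((hne (hc1 _) (hc3 _)).inter (hne (hc2 _) (hc3 _)))
  have hcov : K ⊆ ⋃ g, U g := by
    intro p hp
    obtain ⟨h12, h13, h23⟩ := hKd p hp
    have sep : ∀ z w : Zc, z ≠ w → ∃ g, z.1 g ≠ w.1 g := by
      intro z w hzw
      by_contra hc
      push Not at hc
      exact hzw (Subtype.ext (funext hc))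
    obtain ⟨g1, hg1⟩ := sep _ _ h12
    obtain ⟨g2, hg2⟩ := sep _ _ h13
    obtain ⟨g3, hg3⟩ := sep _ _ h23
    exact Set.mem_iUnion.2 ⟨(g1, g2, g3), hg1, hg2, hg3⟩
  obtain ⟨t, ht⟩ := hK.elim_finite_subcover U hU hcov
  -- a bound for the lengths
  obtain ⟨R, hR⟩ : ∃ R : ℕ, ∀ g ∈ t, wlen (basis 3) g.1 ≤ R ∧ wlen (basis 3) g.2.1 ≤ R ∧
      wlen (basis 3) g.2.2 ≤ R := by
    refine ⟨t.sup fun g => wlen (basis 3) g.1 + wlen (basis 3) g.2.1 + wlen (basis 3) g.2.2,
      fun g hg => ?_⟩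
    have := Finset.le_sup (f := fun g : F3 × F3 × F3 =>
      wlen (basis 3) g.1 + wlen (basis 3) g.2.1 + wlen (basis 3) g.2.2) hg
    refine ⟨?_, ?_, ?_⟩ <;> omega
  have hsep : ∀ p ∈ K, ∃ g1 g2 g3 : F3, (wlen (basis 3) g1 ≤ R ∧ wlen (basis 3) g2 ≤ R ∧
      wlen (basis 3) g3 ≤ R) ∧ p.1.1 g1 ≠ p.2.1.1 g1 ∧ p.1.1 g2 ≠ p.2.2.1 g2 ∧
      p.2.1.1 g3 ≠ p.2.2.1 g3 := by
    intro p hp
    obtain ⟨g, hg⟩ := Set.mem_iUnion.1 (ht hp)
    obtain ⟨hg, hpU⟩ := Set.mem_iUnion.1 hg
    exact ⟨g.1, g.2.1, g.2.2, hR g hg, hpU⟩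
  refine (ball_finite' (2 * (R + 1))).subset ?_
  rintro h ⟨p, hp, hhp⟩
  obtain ⟨g1, g2, g3, ⟨r1, r2, r3⟩, e1, e2, e3⟩ := hsep p hp
  obtain ⟨k1, k2, k3, ⟨t1, t2, t3⟩, f1, f2, f3⟩ := hsep _ hhp
  change p.1.1 (h⁻¹ * k1) ≠ p.2.1.1 (h⁻¹ * k1) at f1
  change p.1.1 (h⁻¹ * k2) ≠ p.2.2.1 (h⁻¹ * k2) at f2
  change p.2.1.1 (h⁻¹ * k3) ≠ p.2.2.1 (h⁻¹ * k3) at f3
  let I : Set F3 := {g1, g2, g3, h⁻¹ * k1, h⁻¹ * k2, h⁻¹ * k3}
  have hI : I.Finite := Set.toFinite _
  obtain ⟨x1, hx1⟩ := approx p.1 I hI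
  obtain ⟨x2, hx2⟩ := approx p.2.1 I hI
  obtain ⟨x3, hx3⟩ := approx p.2.2 I hI
  have m1 : g1 ∈ I := by simp [I]
  have m2 : g2 ∈ I := by simp [I]
  have m3 : g3 ∈ I := by simp [I]
  have n1 : h⁻¹ * k1 ∈ I := by simp [I]
  have n2 : h⁻¹ * k2 ∈ I := by simp [I]
  have n3 : h⁻¹ * k3 ∈ I := by simp [I]
  have bound : ∀ (x y g : F3), wlen (basis 3) g ≤ R → s x g ≠ s y g →
      gprod (basis 3) 1 x y ≤ (R : ℝ) + 1 := by
    intro x y g hg hs
    have h1 := gprod_of_sep hs
    have h2 : (wlen (basis 3) g : ℝ) ≤ R := by exact_mod_cast hg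
    linarith
  have hfin := len_le (R := (R : ℝ) + 1)
    (bound x1 x2 g1 r1 (by rw [hx1 _ m1, hx2 _ m1]; exact e1))
    (bound x1 x3 g2 r2 (by rw [hx1 _ m2, hx3 _ m2]; exact e2))
    (bound x2 x3 g3 r3 (by rw [hx2 _ m3, hx3 _ m3]; exact e3))
    (bound (h * x1) (h * x2) k1 t1 (by rw [s_mul, s_mul, hx1 _ n1, hx2 _ n1]; exact f1))
    (bound (h * x1) (h * x3) k2 t2 (by rw [s_mul, s_mul, hx1 _ n2, hx3 _ n2]; exact f2))
    (bound (h * x2) (h * x3) k3 t3 (by rw [s_mul, s_mul, hx2 _ n3, hx3 _ n3]; exact f3))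
  change wlen (basis 3) h ≤ 2 * (R + 1)
  exact_mod_cast hfin

end Pool.Agent.W2helper1.CTL
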