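import Mathlib
import Pool.Agent.W2helper1.CTL.Walls

/-!
The Cannon-Thurston map `f : ∂F → Z`.
-/

set_option autoImplicit false

namespace Pool.Agent.W2helper1.CTL

open Filter Topology Pool.Agent.H322R3.Hyp Pool.Agent.R639.CT FreeGroup

lemma hyp0 : ∀ x y z : F3, min (gprod (basis 3) 1 x y) (gprod (basis 3) 1 y z) - 0 ≤
    gprod (basis 3) 1 x z := hyp_free

lemma bmk_eq (x y : InfSeq (basis 3)) : bmk (basis 3) x = bmk (basis 3) y ↔
    BEquiv (basis 3) x y := bmk_eq_iff clB le_rfl hyp0 x y

lemma ev_eq {x y : InfSeq (basis 3)} (h : BEquiv (basis 3) x y) (g : F3) :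
    ∃ N : ℕ, ∀ i j, N ≤ i → N ≤ j → s (x.1 i) g = s (y.1 j) g := by
  obtain ⟨N, hN⟩ := (bequiv_def x y).1 h ((wlen (basis 3) g : ℝ) + 1)
  exact ⟨N, fun i j hi hj => s_eq_of_gprod (hN i j hi hj)⟩

open Classical in
/-- The limit of the values `s (x i) g`. -/
noncomputable def flim (x : InfSeq (basis 3)) (g : F3) : Bool :=
  decide (∀ᶠ i in atTop, s (x.1 i) g = true)

open Classical in
lemma flim_spec (x : InfSeq (basis 3)) (g : F3) : ∀ᶠ i in atTop, s (x.1 i) g = flim x g := by
  obtain ⟨N, hN⟩ := ev_eq (bequiv_equivalence clB le_rfl hyp0 |>.refl x) g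
  have hc : ∀ i, N ≤ i → s (x.1 i) g = s (x.1 N) g := fun i hi => hN i N hi le_rfl
  unfold flim
  by_cases h : s (x.1 N) g = true
  · have h1 : ∀ᶠ i in atTop, s (x.1 i) g = true :=
      eventually_atTop.2 ⟨N, fun i hi => by rw [hc i hi, h]⟩
    rw [decide_eq_true h1]
    exact h1
  · have h0 : s (x.1 N) g = false := by simpa using h
    have h1 : ¬ ∀ᶠ i in atTop, s (x.1 i) g = true := by
      intro h2
      obtain ⟨M, hM⟩ := eventually_atTop.1 h2
      have := hM (max N M) (le_max_right _ _)
      rw [hc _ (le_max_left _ _), h0] at this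
      exact absurd this (by simp)
    rw [decide_eq_false h1]
    exact eventually_atTop.2 ⟨N, fun i hi => by rw [hc i hi, h0]⟩

lemma flim_eq {x y : InfSeq (basis 3)} (h : BEquiv (basis 3) x y) : flim x = flim y := by
  funext g
  obtain ⟨N, hN⟩ := ev_eq h g
  obtain ⟨N1, h1⟩ := eventually_atTop.1 (flim_spec x g)
  obtain ⟨N2, h2⟩ := eventually_atTop.1 (flim_spec y g)
  rw [← h1 (max N (max N1 N2)) (le_trans (le_max_left _ _) (le_max_right _ _)),
    ← h2 (max N (max N1 N2)) (le_trans (le_max_right _ _) (le_max_right _ _))]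
  exact hN _ _ (le_max_left _ _) (le_max_left _ _)

lemma flim_mem (x : InfSeq (basis 3)) : flim x ∈ Zset := by
  refine mem_closure_of_tendsto (f := fun i => s (x.1 i)) (b := atTop) ?_
    (Eventually.of_forall fun i => ⟨_, rfl⟩)
  rw [tendsto_pi_nhds]
  intro g
  exact tendsto_const_nhds.congr' ((flim_spec x g).mono fun i hi => hi.symm)

/-- The Cannon-Thurston map. -/
noncomputable def fmap : Boundary (basis 3) → Zc :=
  Quot.lift (fun x => ⟨flim x, flim_mem x⟩) fun _ _ h => Subtype.ext (flim_eq h)

lemma fmap_bmk (x : InfSeq (basis 3)) (g : F3) : (fmap (bmk (basis 3) x)).1 g = flim x g := rfl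

lemma fmap_continuous : Continuous fmap := by
  refine Continuous.subtype_mk (f := fun ξ => (fmap ξ).1) ?_ fun ξ => (fmap ξ).2
  refine continuous_pi fun g => ?_
  refine continuous_def.2 fun U _ => ?_
  intro ξ hξ
  refine ⟨(wlen (basis 3) g : ℝ) + 1, ?_⟩
  rintro η ⟨x, y, rfl, rfl, N, hN⟩
  obtain ⟨N1, h1⟩ := eventually_atTop.1 (flim_spec x g)
  obtain ⟨N2, h2⟩ := eventually_atTop.1 (flim_spec y g)
  have h3 : flim x g = flim y g := by
    rw [← h1 (max N (max N1 N2)) (le_trans (le_max_left _ _) (le_max_right _ _)),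
      ← h2 (max N (max N1 N2)) (le_trans (le_max_right _ _) (le_max_right _ _))]
    exact s_eq_of_gprod (hN _ _ (le_max_left _ _) (le_max_left _ _))
  change flim x g ∈ U at hξ
  change flim y g ∈ U
  rwa [← h3]

theorem fmap_ct : IsCTMap (basis 3) z0 fmap where
  continuous := fmap_continuous
  tendsto := by
    rintro x ξ ⟨y, rfl, rfl⟩
    rw [tendsto_subtype_rng, tendsto_pi_nhds]
    intro g
    refine tendsto_const_nhds.congr' ((flim_spec y g).mono fun i hi => ?_)
    have h1 : (y.1 i • z0 : Zc) = pt (y.1 i) := smul_z0 _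
    exact hi.symm.trans (congrArg (fun z : Zc => z.1 g) h1.symm)

/-! ### first letters -/

/-- The generators. -/
def gen (i : Fin 3) (b : Bool) : F3 := FreeGroup.mk [(i, b)]

lemma red_prefix {l m : List (Fin 3 × Bool)} (h : IsReduced (l ++ m)) : IsReduced l := by
  unfold FreeGroup.IsReduced at h ⊢
  exact (List.isChain_append.1 h).1

lemma toWord_mk_of_red {l : List (Fin 3 × Bool)} (h : IsReduced l) :
    (FreeGroup.mk l).toWord = l := by
  rw [toWord_mk, h.reduce_eq]

/-- Multiplication on the right by a letter other than `c^±` does not change whether the first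
letter is `c`. -/
lemma sig_mul (u : F3) (i : Fin 3) (b : Bool) (hi : i ≠ 2) : sig (u * gen i b) = sig u := by
  have hred : IsReduced u.toWord := isReduced_toWord
  obtain ⟨l, hl⟩ : ∃ l, u.toWord = l := ⟨_, rfl⟩
  have hu : u = FreeGroup.mk l := by rw [← hl, mk_toWord]
  rw [hl] at hred
  rcases List.eq_nil_or_concat l with rfl | ⟨l', t, rfl⟩
  · -- empty word
    have h1 : u * gen i b = FreeGroup.mk [(i, b)] := by
      rw [hu, gen, mul_mk]; simp
    have h2 : (FreeGroup.mk [(i, b)]).toWord = [(i, b)] := toWord_mk_of_red (by simp [FreeGroup.IsReduced])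
    unfold sig
    rw [h1, h2, hl]
    simp [hi]
  · rw [List.concat_eq_append] at *
    by_cases ht : t = (i, !b)
    · subst ht
      have h1 : u * gen i b = FreeGroup.mk l' := by
        rw [hu, gen, mul_mk]
        apply Quot.sound
        rw [List.append_assoc]
        have := FreeGroup.Red.Step.not (L₁ := l') (L₂ := []) (x := i) (b := !b)
        simpa using this
      have hred' : IsReduced l' := red_prefix hred
      unfold sig
      rw [h1, toWord_mk_of_red hred', hl]
      cases l' with
      | nil => simp [hi]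
      | cons a l' => simp
    · have hred2 : IsReduced (l' ++ [t] ++ [(i, b)]) := by
        unfold FreeGroup.IsReduced at hred ⊢
        rw [List.isChain_append]
        refine ⟨hred, by simp, ?_⟩
        intro x hx y hy
        simp at hx hy
        subst hx hy
        intro h
        by_contra hne
        apply ht
        obtain ⟨t1, t2⟩ := t
        simp only at h hne ⊢
        rw [h]
        revert hne
        cases t2 <;> cases b <;> simp
      have h1 : u * gen i b = FreeGroup.mk (l' ++ [t] ++ [(i, b)]) := by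
        rw [hu, gen, mul_mk]
      unfold sig
      rw [h1, toWord_mk_of_red hred2, hl]
      cases l' with
      | nil => simp
      | cons a l' => simp

lemma s_mul_gen (h g : F3) (i : Fin 3) (b : Bool) (hi : i ≠ 2) : s (h * gen i b) g = s h g := by
  unfold s
  rw [← mul_assoc]
  exact sig_mul _ i b hi

end Pool.Agent.W2helper1.CTL
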