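import Mathlib
import Pool.Agent.W2helper1.CTL.Map

/-!
Orbits in `Z` are infinite; `fmap` is equivariant with infinite range.
-/

set_option autoImplicit false

namespace Pool.Agent.W2helper1.CTL

open Filter Topology Pool.Agent.H322R3.Hyp Pool.Agent.R639.CT FreeGroup

/-- The word `c^n`. -/
def cw (n : ℕ) : List (Fin 3 × Bool) := List.replicate n ((2 : Fin 3), true)

lemma red_cw (n : ℕ) (l : List (Fin 3 × Bool)) (hl : IsReduced l)
    (hh : l.head? ≠ some ((2 : Fin 3), false)) : IsReduced (cw n ++ l) := by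
  induction n with
  | zero => simpa [cw] using hl
  | succ n ih =>
    have h1 : cw (n + 1) ++ l = ((2 : Fin 3), true) :: (cw n ++ l) := by
      simp [cw, List.replicate_succ]
    rw [h1]
    unfold FreeGroup.IsReduced at ih ⊢
    rw [List.isChain_cons]
    refine ⟨?_, ih⟩
    intro y hy h2
    simp only at h2 ⊢
    cases n with
    | zero =>
      simp only [cw, List.replicate_zero, List.nil_append] at hy
      by_contra hne
      apply hh
      rw [hy]
      obtain ⟨y1, y2⟩ := y
      simp only at h2 hne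
      rw [← h2]
      cases y2 <;> simp_all
    | succ n =>
      simp only [cw, List.replicate_succ, List.cons_append, List.head?_cons, Option.mem_def,
        Option.some.injEq] at hy
      rw [← hy]

lemma cpow (n : ℕ) : (gen 2 true) ^ n = FreeGroup.mk (cw n) := by
  induction n with
  | zero => simp [cw, one_eq_mk]
  | succ n ih =>
    rw [pow_succ', ih, gen, mul_mk]
    simp [cw, List.replicate_succ]

/-- the key facts for group elements -/
lemma sig_facts (h : F3) {n m : ℕ} (hn : 1 ≤ n) (hm : 1 ≤ m)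
    (heq : sig h = sig ((gen 2 true) ^ n * h)) :
    sig ((gen 0 true)⁻¹ * h) = false ∧ sig ((gen 2 true) ^ m * ((gen 0 true)⁻¹ * h)) = true := by
  have hred : IsReduced h.toWord := isReduced_toWord
  obtain ⟨l, hl⟩ : ∃ l, h.toWord = l := ⟨_, rfl⟩
  have hu : h = FreeGroup.mk l := by rw [← hl, mk_toWord]
  rw [hl] at hred
  -- the first letter of `h` is `c` or `c⁻¹`
  have hhead : ∃ b, l.head? = some ((2 : Fin 3), b) := by
    by_contra hc
    push Not at hc
    have h1 : sig h = false := by
      unfold sig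
      rw [hl]
      simp [hc true]
    have h2 : (gen 2 true) ^ n * h = FreeGroup.mk (cw n ++ l) := by
      rw [cpow, hu, mul_mk]
    have h3 : ((gen 2 true) ^ n * h).toWord = cw n ++ l := by
      rw [h2]
      exact toWord_mk_of_red (red_cw n l hred (hc false))
    have h4 : sig ((gen 2 true) ^ n * h) = true := by
      unfold sig
      rw [h3]
      obtain ⟨k, rfl⟩ := Nat.exists_eq_add_of_le' hn
      simp [cw, List.replicate_succ]
    rw [h1, h4] at heq
    exact absurd heq (by simp)
  obtain ⟨b, hb⟩ := hhead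
  have hA : (gen 0 true)⁻¹ * h = FreeGroup.mk (((0 : Fin 3), false) :: l) := by
    rw [hu, gen, inv_mk, mul_mk]
    simp [invRev]
  have hredA : IsReduced (((0 : Fin 3), false) :: l) := by
    unfold FreeGroup.IsReduced at hred ⊢
    rw [List.isChain_cons]
    refine ⟨?_, hred⟩
    intro y hy h2
    rw [hb] at hy
    simp only [Option.mem_def, Option.some.injEq] at hy
    rw [← hy] at h2
    simp at h2
  constructor
  · unfold sig
    rw [hA, toWord_mk_of_red hredA]
    simp
  · have h2 : (gen 2 true) ^ m * ((gen 0 true)⁻¹ * h) =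
        FreeGroup.mk (cw m ++ (((0 : Fin 3), false) :: l)) := by
      rw [cpow, hA, mul_mk]
    have h3 : IsReduced (cw m ++ (((0 : Fin 3), false) :: l)) :=
      red_cw m _ hredA (by simp)
    unfold sig
    rw [h2, toWord_mk_of_red h3]
    obtain ⟨k, rfl⟩ := Nat.exists_eq_add_of_le' hm
    simp [cw, List.replicate_succ]

lemma exists_pow_fix {z : Zc} (hz : (MulAction.orbit F3 z).Finite) (g : F3) :
    ∃ n : ℕ, 1 ≤ n ∧ g ^ n • z = z := by
  have hmap : ∀ n : ℕ, g ^ n • z ∈ MulAction.orbit F3 z := fun n => ⟨g ^ n, rfl⟩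
  have hninj : ¬ Function.Injective (fun n : ℕ => (⟨g ^ n • z, hmap n⟩ :
      MulAction.orbit F3 z)) := by
    intro hinj
    have := hz.to_subtype
    exact not_injective_infinite_finite _ hinj
  unfold Function.Injective at hninj
  push Not at hninj
  obtain ⟨i, j, hij, hne⟩ := hninj
  have hij' : g ^ i • z = g ^ j • z := congrArg Subtype.val hij
  rcases lt_or_gt_of_ne hne with h | h
  · refine ⟨j - i, by omega, ?_⟩
    have h1 : g ^ j = g ^ i * g ^ (j - i) := by rw [← pow_add]; congr 1; omega
    rw [h1, mul_smul] at hij'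
    exact (smul_left_cancel _ hij').symm
  · refine ⟨i - j, by omega, ?_⟩
    have h1 : g ^ i = g ^ j * g ^ (i - j) := by rw [← pow_add]; congr 1; omega
    rw [h1, mul_smul] at hij'
    exact smul_left_cancel _ hij'

theorem orbit_infinite (z : Zc) : (MulAction.orbit F3 z).Infinite := by
  intro hfin
  set a : F3 := gen 0 true with ha
  set c : F3 := gen 2 true with hc
  obtain ⟨n, hn, hcn⟩ := exists_pow_fix hfin c
  obtain ⟨m, hm, hdm⟩ := exists_pow_fix hfin (a * c * a⁻¹)
  obtain ⟨h, hh⟩ := approx z {1, (c ^ n)⁻¹, a, a * (c ^ m)⁻¹} (Set.toFinite _)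
  have h1 := hh 1 (by simp)
  have h2 := hh (c ^ n)⁻¹ (by simp)
  have h3 := hh a (by simp)
  have h4 := hh (a * (c ^ m)⁻¹) (by simp)
  have e1 : z.1 (c ^ n)⁻¹ = z.1 1 := by
    have := congrArg (fun w : Zc => w.1 1) hcn
    simp only [smul_apply, mul_one] at this
    exact this
  have e2 : z.1 (a * (c ^ m)⁻¹) = z.1 a := by
    have := congrArg (fun w : Zc => w.1 a) hdm
    simp only [smul_apply, conj_pow] at this
    have e3 : (a * c ^ m * a⁻¹)⁻¹ * a = a * (c ^ m)⁻¹ := by group
    rw [e3] at this
    exact this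
  have heq : sig h = sig (c ^ n * h) := by
    rw [← h1, ← h2] at e1
    simp only [s, inv_inv, inv_one, one_mul] at e1
    exact e1.symm
  obtain ⟨f1, f2⟩ := sig_facts h hn hm heq
  rw [← h4, ← h3] at e2
  simp only [s, mul_inv_rev, inv_inv, mul_assoc] at e2
  rw [f1] at e2
  rw [f2] at e2
  exact absurd e2 (by simp)

lemma fmap_equivariant (g : F3) (ξ : Boundary (basis 3)) :
    fmap (bsmul clB g ξ) = g • fmap ξ := by
  obtain ⟨x, rfl⟩ := Quot.exists_rep ξ
  apply Subtype.ext
  funext k
  change flim (translate clB g x) k = flim x (g⁻¹ * k)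
  obtain ⟨N1, h1⟩ := eventually_atTop.1 (flim_spec (translate clB g x) k)
  obtain ⟨N2, h2⟩ := eventually_atTop.1 (flim_spec x (g⁻¹ * k))
  rw [← h1 (max N1 N2) (le_max_left _ _), ← h2 (max N1 N2) (le_max_right _ _)]
  exact s_mul g _ k

end Pool.Agent.W2helper1.CTL
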