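import Mathlib
import Pool.Agent.W2helper1.CTL.Orbits

/-!
The boundary points given by infinite positive words in `a` and `b`; they have the same image under
`fmap` and form a set of positive Hausdorff dimension for every visual metric.
-/

set_option autoImplicit false

namespace Pool.Agent.W2helper1.CTL

open Filter Topology Pool.Agent.H322R3.Hyp Pool.Agent.R639.CT FreeGroup
open scoped NNReal ENNReal

section lists

variable {β : Type*} [DecidableEq β]

lemma le_lcp {l m : List β} {k : ℕ} (h : l.take k = m.take k) (hl : k ≤ l.length)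
    (hm : k ≤ m.length) : k ≤ lcp l m := by
  induction k generalizing l m with
  | zero => exact Nat.zero_le _
  | succ k ih =>
    cases l with
    | nil => simp at hl
    | cons a l =>
      cases m with
      | nil => simp at hm
      | cons b m =>
        simp only [List.take_succ_cons, List.cons.injEq] at h
        rw [lcp_cons_cons, if_pos h.1]
        have := ih h.2 (by simpa using hl) (by simpa using hm)
        omega

lemma lcp_le_of_ne {l m : List β} {k : ℕ} (h : l[k]? ≠ m[k]?) : lcp l m ≤ k := by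
  induction k generalizing l m with
  | zero =>
    by_contra hc
    push Not at hc
    apply h
    rw [← List.head?_eq_getElem?, ← List.head?_eq_getElem?]
    exact head_of_lcp hc
  | succ k ih =>
    cases l with
    | nil => simp [lcp_nil_left]
    | cons a l =>
      cases m with
      | nil => simp [lcp_nil_right]
      | cons b m =>
        rw [lcp_cons_cons]
        split
        · have : lcp l m ≤ k := ih (by simpa using h)
          omega
        · exact Nat.zero_le _

lemma getElem_of_lcp {l m : List β} {k : ℕ} (h : k + 1 ≤ lcp l m) : l[k]? = m[k]? := by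
  by_contra hc
  have := lcp_le_of_ne hc
  omega

end lists

/-- Positive words in `a`, `b` given by a sequence of digits. -/
def pw (d : ℕ → Fin 2) (n : ℕ) : List (Fin 3 × Bool) :=
  (List.range n).map fun i => ((d i).castSucc, true)

lemma pw_length (d : ℕ → Fin 2) (n : ℕ) : (pw d n).length = n := by simp [pw]

lemma pw_succ (d : ℕ → Fin 2) (n : ℕ) : pw d (n + 1) = pw d n ++ [((d n).castSucc, true)] := by
  simp [pw, List.range_succ]

lemma pw_red (d : ℕ → Fin 2) (n : ℕ) : IsReduced (pw d n) := by
  induction n with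
  | zero => simp [pw, FreeGroup.IsReduced]
  | succ n ih =>
    rw [pw_succ]
    unfold FreeGroup.IsReduced at ih ⊢
    rw [List.isChain_append]
    refine ⟨ih, by simp, ?_⟩
    intro x hx y hy _
    simp at hy
    have hx' : x ∈ pw d n := List.mem_of_mem_getLast? hx
    simp only [pw, List.mem_map] at hx'
    obtain ⟨i, _, rfl⟩ := hx'
    rw [← hy]

lemma pw_getElem (d : ℕ → Fin 2) {n k : ℕ} (h : k < n) :
    (pw d n)[k]? = some ((d k).castSucc, true) := by
  simp [pw, h]

lemma pw_take (d : ℕ → Fin 2) {n k : ℕ} (h : k ≤ n) : (pw d n).take k = pw d k := by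
  simp [pw, ← List.map_take, List.take_range, min_eq_left h]

lemma pw_congr {d e : ℕ → Fin 2} {k : ℕ} (h : ∀ i < k, d i = e i) : pw d k = pw e k := by
  unfold pw
  apply List.map_congr_left
  intro i hi
  rw [h i (by simpa using hi)]

/-- The group elements given by the positive words. -/
def pe (d : ℕ → Fin 2) (n : ℕ) : F3 := FreeGroup.mk (pw d n)

lemma pe_toWord (d : ℕ → Fin 2) (n : ℕ) : (pe d n).toWord = pw d n := toWord_mk_of_red (pw_red d n)

lemma pe_gprod_le {d e : ℕ → Fin 2} {k n m : ℕ} (hk : d k ≠ e k) (hn : k < n) (hm : k < m) :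
    gprod (basis 3) 1 (pe d n) (pe e m) ≤ k := by
  have h1 : gprod (basis 3) 1 (pe d n) (pe e m) = lcp (pe d n).toWord (pe e m).toWord :=
    gprod_free _ _
  rw [h1, pe_toWord, pe_toWord]
  have : lcp (pw d n) (pw e m) ≤ k := by
    apply lcp_le_of_ne
    rw [pw_getElem d hn, pw_getElem e hm]
    simpa using hk
  exact_mod_cast this

lemma pe_le_gprod {d e : ℕ → Fin 2} {k n m : ℕ} (hk : ∀ i < k, d i = e i) (hn : k ≤ n)
    (hm : k ≤ m) : (k : ℝ) ≤ gprod (basis 3) 1 (pe d n) (pe e m) := by
  have h1 : gprod (basis 3) 1 (pe d n) (pe e m) = lcp (pe d n).toWord (pe e m).toWord :=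
    gprod_free _ _
  rw [h1, pe_toWord, pe_toWord]
  have : k ≤ lcp (pw d n) (pw e m) := by
    apply le_lcp
    · rw [pw_take d hn, pw_take e hm, pw_congr hk]
    · rwa [pw_length]
    · rwa [pw_length]
  exact_mod_cast this

lemma pe_conv (d : ℕ → Fin 2) : ConvInf (basis 3) (pe d) := by
  unfold ConvInf
  rw [tendsto_pair_iff (fun i j => gprod (basis 3) 1 (pe d i) (pe d j))]
  intro M
  refine ⟨⌈M⌉₊, fun i j hi hj => ?_⟩
  exact (Nat.le_ceil M).trans (pe_le_gprod (k := ⌈M⌉₊) (fun _ _ => rfl) hi hj)

/-- The sequence of the initial segments. -/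
def ps (d : ℕ → Fin 2) : InfSeq (basis 3) := ⟨pe d, pe_conv d⟩

/-- The boundary point given by an infinite positive word in `a` and `b`. -/
def px (d : ℕ → Fin 2) : Boundary (basis 3) := bmk (basis 3) (ps d)

lemma px_inj : Function.Injective px := by
  intro d e h
  by_contra hne
  obtain ⟨k, hk⟩ : ∃ k, d k ≠ e k := by
    by_contra hc
    push Not at hc
    exact hne (funext hc)
  have h1 : BEquiv (basis 3) (ps d) (ps e) := (bmk_eq _ _).1 h
  obtain ⟨N, hN⟩ := (bequiv_def _ _).1 h1 ((k : ℝ) + 1)
  have h2 := hN (max N (k + 1)) (max N (k + 1)) (le_max_left _ _) (le_max_left _ _)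
  have h3 := pe_gprod_le (n := max N (k + 1)) (m := max N (k + 1)) hk
    (lt_of_lt_of_le (Nat.lt_succ_self k) (le_max_right _ _))
    (lt_of_lt_of_le (Nat.lt_succ_self k) (le_max_right _ _))
  have h4 : (k : ℝ) + 1 ≤ k := h2.trans h3
  linarith

lemma s_pe (d : ℕ → Fin 2) (n : ℕ) (g : F3) : s (pe d n) g = s 1 g := by
  induction n with
  | zero => simp [pe, pw, one_eq_mk]
  | succ n ih =>
    have h1 : pe d (n + 1) = pe d n * gen (d n).castSucc true := by
      rw [pe, pe, gen, mul_mk, pw_succ]
    rw [h1, s_mul_gen, ih]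
    intro h
    have := congrArg Fin.val h
    have h2 := (d n).2
    simp at this
    omega

lemma fmap_px (d : ℕ → Fin 2) : fmap (px d) = z0 := by
  apply Subtype.ext
  funext g
  change flim (ps d) g = s 1 g
  obtain ⟨N, hN⟩ := eventually_atTop.1 (flim_spec (ps d) g)
  rw [← hN N le_rfl]
  exact s_pe d N g

lemma px_mem (d : ℕ → Fin 2) : px d ∈ endpoints fmap := by
  refine ⟨px (fun i => 1 - d i), ?_, by rw [fmap_px, fmap_px]⟩
  intro h
  have := congrFun (px_inj h) 0
  have h2 : ∀ x : Fin 2, x ≠ 1 - x := by decide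
  exact h2 _ this

theorem range_infinite : (Set.range fmap).Infinite := by
  refine (orbit_infinite z0).mono ?_
  rintro _ ⟨g, rfl⟩
  refine ⟨bsmul clB g (px 0), ?_⟩
  rw [fmap_equivariant, fmap_px]

/-! ### Hausdorff dimension -/

theorem dim_pos {a : ℝ} (ha : 1 < a) (m : MetricSpace (Boundary (basis 3)))
    (hm : IsVisualCayley (basis 3) a m) : 0 < hausdorffDim m (endpoints fmap) := by
  obtain ⟨C, hC, hvis⟩ := hm
  -- lower bound for distances
  have hlow : ∀ d e : ℕ → Fin 2, ∀ k : ℕ, (∀ i < k, d i = e i) → d k ≠ e k →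
      C⁻¹ * a ^ (-(k : ℝ)) ≤ m.dist (px d) (px e) := by
    intro d e k _ hk
    have hne : bmk (basis 3) (ps d) ≠ bmk (basis 3) (ps e) := fun h =>
      hk (congrFun (px_inj h) k)
    obtain ⟨N, hN⟩ := hvis (ps d) (ps e) hne
    have h1 := (hN (max N (k + 1)) (max N (k + 1)) (le_max_left _ _) (le_max_left _ _)).1
    have h3 := pe_gprod_le (n := max N (k + 1)) (m := max N (k + 1)) hk
      (lt_of_lt_of_le (Nat.lt_succ_self k) (le_max_right _ _))
      (lt_of_lt_of_le (Nat.lt_succ_self k) (le_max_right _ _))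
    refine le_trans ?_ h1
    have : a ^ (-(k : ℝ)) ≤ a ^ (-(gprod (basis 3) 1 ((ps d).1 (max N (k + 1)))
        ((ps e).1 (max N (k + 1))))) :=
      Real.rpow_le_rpow_of_exponent_le ha.le (neg_le_neg h3)
    exact mul_le_mul_of_nonneg_left this (inv_nonneg.2 hC.le)
  -- the value map
  let A : Set (Boundary (basis 3)) := Set.range px
  let v : Boundary (basis 3) → ℝ := fun ξ => Real.ofDigits (Function.invFun px ξ)
  have hv : ∀ d, v (px d) = Real.ofDigits d := fun d => by
    simp only [v]
    rw [Function.leftInverse_invFun px_inj d]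
  set α : ℝ := Real.log 2 / Real.log a with hα
  have hloga : 0 < Real.log a := Real.log_pos ha
  have hαpos : 0 < α := div_pos (Real.log_pos (by norm_num)) hloga
  have haα : a ^ α = 2 := by
    rw [hα, Real.rpow_def_of_pos (by linarith), mul_div_cancel₀ _ hloga.ne',
      Real.exp_log (by norm_num)]
  have hholder : ∀ x ∈ A, ∀ y ∈ A, |v x - v y| ≤ C ^ α * (m.dist x y) ^ α := by
    rintro _ ⟨d, rfl⟩ _ ⟨e, rfl⟩
    rw [hv, hv]
    by_cases hde : d = e
    · subst hde
      simp only [sub_self, abs_zero]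
      have : 0 ≤ m.dist (px d) (px d) := @dist_nonneg _ m.toPseudoMetricSpace _ _
      positivity
    · have hex : ∃ k, d k ≠ e k := by
        by_contra hc
        push Not at hc
        exact hde (funext hc)
      classical
      set k := Nat.find hex
      have hk : d k ≠ e k := Nat.find_spec hex
      have hlt : ∀ i < k, d i = e i := fun i hi => by
        have := Nat.find_min hex hi
        simpa using this
      have h1 := Real.abs_ofDigits_sub_ofDigits_le hlt
      have h2 := hlow d e k hlt hk
      have h3 : a ^ (-(k : ℝ)) ≤ C * m.dist (px d) (px e) := by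
        rw [inv_mul_le_iff₀ hC] at h2
        exact h2
      have h4 : (a ^ (-(k : ℝ))) ^ α ≤ (C * m.dist (px d) (px e)) ^ α :=
        Real.rpow_le_rpow (by positivity) h3 hαpos.le
      have h5 : (a ^ (-(k : ℝ))) ^ α = ((2 : ℝ) ^ k)⁻¹ := by
        rw [← Real.rpow_mul (by linarith), mul_comm, Real.rpow_mul (by linarith), haα,
          Real.rpow_neg (by norm_num), Real.rpow_natCast]
      rw [h5] at h4
      rw [Real.mul_rpow hC.le (@dist_nonneg _ m.toPseudoMetricSpace _ _)] at h4
      refine le_trans ?_ h4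
      simpa using h1
  let _ := m
  have hhold : HolderOnWith (Real.toNNReal (C ^ α)) (Real.toNNReal α) v A := by
    intro x hx y hy
    have h1 := hholder x hx y hy
    rw [edist_dist, edist_dist, Real.dist_eq]
    have h2 : ENNReal.ofReal (dist x y) ^ (Real.toNNReal α : ℝ) =
        ENNReal.ofReal (dist x y ^ α) := by
      rw [Real.coe_toNNReal _ hαpos.le, ENNReal.ofReal_rpow_of_nonneg dist_nonneg hαpos.le]
    rw [h2]
    have h3 : ((Real.toNNReal (C ^ α) : ℝ≥0) : ℝ≥0∞) = ENNReal.ofReal (C ^ α) := rfl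
    rw [h3, ← ENNReal.ofReal_mul (by positivity)]
    exact ENNReal.ofReal_le_ofReal h1
  have h1 := hhold.dimH_image_le (Real.toNNReal_pos.2 hαpos)
  have h2 : Set.Icc (0 : ℝ) 1 ⊆ v '' A := by
    intro t ht
    obtain ⟨d, -, hd⟩ := Real.ofDigits_SurjOn (b := 2) (by norm_num) ht
    exact ⟨px d, ⟨d, rfl⟩, by rw [hv, hd]⟩
  have h3 : dimH (Set.Icc (0 : ℝ) 1) = 1 := by
    rw [Real.dimH_of_nonempty_interior]
    · simp
    · rw [interior_Icc]; exact Set.nonempty_Ioo.2 one_pos
  have h4 : (1 : ℝ≥0∞) ≤ dimH A / (Real.toNNReal α : ℝ≥0) := by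
    rw [← h3]
    exact (dimH_mono h2).trans h1
  have h5 : 0 < dimH A := by
    by_contra hc
    have : dimH A = 0 := le_antisymm (not_lt.1 hc) zero_le
    rw [this] at h4
    simp at h4
  have h6 : A ⊆ endpoints fmap := by
    rintro _ ⟨d, rfl⟩
    exact px_mem d
  exact lt_of_lt_of_le h5 (dimH_mono h6)

end Pool.Agent.W2helper1.CTL
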