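import Mathlib
import Pool.Agent.W2helper1.CTL.Rays

/-!
Existence of visual metrics `a ^ (-(ξ | η))` on the boundary of the free group of rank three.
-/

set_option autoImplicit false

namespace Pool.Agent.W2helper1.CTL

open Filter Topology Pool.Agent.H322R3.Hyp Pool.Agent.R639.CT FreeGroup

lemma gprod_lcp (x y : F3) : gprod (basis 3) 1 x y = lcp x.toWord y.toWord := gprod_free x y

lemma exists_letter (x : InfSeq (basis 3)) (n : ℕ) : ∃ o : Option (Fin 3 × Bool),
    ∃ N : ℕ, ∀ i, N ≤ i → (x.1 i).toWord[n]? = o := by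
  obtain ⟨N, hN⟩ := (bequiv_def x x).1 x.2 ((n : ℝ) + 1)
  refine ⟨(x.1 N).toWord[n]?, N, fun i hi => ?_⟩
  have h1 := hN i N hi le_rfl
  rw [gprod_lcp] at h1
  exact getElem_of_lcp (by exact_mod_cast h1)

/-- The `n`-th letter of the infinite word given by `x`. -/
noncomputable def wl (x : InfSeq (basis 3)) (n : ℕ) : Option (Fin 3 × Bool) :=
  (exists_letter x n).choose

lemma wl_spec (x : InfSeq (basis 3)) (n : ℕ) : ∃ N : ℕ, ∀ i, N ≤ i →
    (x.1 i).toWord[n]? = wl x n := (exists_letter x n).choose_spec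

lemma wl_spec_lt (x : InfSeq (basis 3)) (k : ℕ) : ∃ N : ℕ, ∀ n < k, ∀ i, N ≤ i →
    (x.1 i).toWord[n]? = wl x n := by
  induction k with
  | zero => exact ⟨0, fun n hn => absurd hn (Nat.not_lt_zero n)⟩
  | succ k ih =>
    obtain ⟨N, hN⟩ := ih
    obtain ⟨M, hM⟩ := wl_spec x k
    refine ⟨max N M, fun n hn i hi => ?_⟩
    rcases Nat.lt_succ_iff_lt_or_eq.1 hn with h | rfl
    · exact hN n h i ((le_max_left _ _).trans hi)
    · exact hM i ((le_max_right _ _).trans hi)

lemma long (x : InfSeq (basis 3)) (k : ℕ) : ∃ N : ℕ, ∀ i, N ≤ i → k ≤ (x.1 i).toWord.length := by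
  obtain ⟨N, hN⟩ := (bequiv_def x x).1 x.2 (k : ℝ)
  refine ⟨N, fun i hi => ?_⟩
  have h1 := hN i i hi hi
  rw [gprod_lcp] at h1
  have h2 := lcp_le_left (x.1 i).toWord (x.1 i).toWord
  have h3 : k ≤ lcp (x.1 i).toWord (x.1 i).toWord := by exact_mod_cast h1
  omega

lemma le_gprod_of_agree {x y : InfSeq (basis 3)} {k : ℕ} (h : ∀ n < k, wl x n = wl y n) :
    ∃ N : ℕ, ∀ i j, N ≤ i → N ≤ j → (k : ℝ) ≤ gprod (basis 3) 1 (x.1 i) (y.1 j) := by
  obtain ⟨N1, h1⟩ := wl_spec_lt x k
  obtain ⟨N2, h2⟩ := wl_spec_lt y k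
  obtain ⟨N3, h3⟩ := long x k
  obtain ⟨N4, h4⟩ := long y k
  refine ⟨max (max N1 N2) (max N3 N4), fun i j hi hj => ?_⟩
  have i1 : N1 ≤ i := ((le_max_left _ _).trans (le_max_left _ _)).trans hi
  have j2 : N2 ≤ j := ((le_max_right _ _).trans (le_max_left _ _)).trans hj
  have i3 : N3 ≤ i := ((le_max_left _ _).trans (le_max_right _ _)).trans hi
  have j4 : N4 ≤ j := ((le_max_right _ _).trans (le_max_right _ _)).trans hj
  rw [gprod_lcp]
  have : k ≤ lcp (x.1 i).toWord (y.1 j).toWord := by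
    apply le_lcp _ (h3 i i3) (h4 j j4)
    apply List.ext_getElem?
    intro n
    by_cases hn : n < k
    · rw [List.getElem?_take_of_lt hn, List.getElem?_take_of_lt hn, h1 n hn i i1, h2 n hn j j2,
        h n hn]
    · rw [List.getElem?_eq_none (by rw [List.length_take]; omega),
        List.getElem?_eq_none (by rw [List.length_take]; omega)]
  exact_mod_cast this

lemma gprod_le_of_ne {x y : InfSeq (basis 3)} {k : ℕ} (h : wl x k ≠ wl y k) :
    ∃ N : ℕ, ∀ i j, N ≤ i → N ≤ j → gprod (basis 3) 1 (x.1 i) (y.1 j) ≤ k := by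
  obtain ⟨N1, h1⟩ := wl_spec x k
  obtain ⟨N2, h2⟩ := wl_spec y k
  refine ⟨max N1 N2, fun i j hi hj => ?_⟩
  rw [gprod_lcp]
  have : lcp (x.1 i).toWord (y.1 j).toWord ≤ k := by
    apply lcp_le_of_ne
    rw [h1 i ((le_max_left _ _).trans hi), h2 j ((le_max_right _ _).trans hj)]
    exact h
  exact_mod_cast this

lemma wl_eq_iff (x y : InfSeq (basis 3)) : wl x = wl y ↔ BEquiv (basis 3) x y := by
  constructor
  · intro h
    rw [bequiv_def]
    intro M
    obtain ⟨N, hN⟩ := le_gprod_of_agree (x := x) (y := y) (k := ⌈M⌉₊)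
      (fun n _ => congrFun h n)
    exact ⟨N, fun i j hi hj => (Nat.le_ceil M).trans (hN i j hi hj)⟩
  · intro h
    funext k
    by_contra hk
    obtain ⟨N1, h1⟩ := gprod_le_of_ne hk
    obtain ⟨N2, h2⟩ := (bequiv_def _ _).1 h ((k : ℝ) + 1)
    have a1 := h1 (max N1 N2) (max N1 N2) (le_max_left _ _) (le_max_left _ _)
    have a2 := h2 (max N1 N2) (max N1 N2) (le_max_right _ _) (le_max_right _ _)
    linarith

/-- The infinite word of a boundary point. -/
noncomputable def bw : Boundary (basis 3) → ℕ → Option (Fin 3 × Bool) :=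
  Quot.lift wl fun x y h => (wl_eq_iff x y).2 h

lemma bw_inj : Function.Injective bw := by
  intro ξ η h
  obtain ⟨x, rfl⟩ := Quot.exists_rep ξ
  obtain ⟨y, rfl⟩ := Quot.exists_rep η
  exact (bmk_eq x y).2 ((wl_eq_iff x y).1 h)

lemma gprod_eq_firstDiff (x y : InfSeq (basis 3)) (h : bmk (basis 3) x ≠ bmk (basis 3) y) :
    ∃ N : ℕ, ∀ i j, N ≤ i → N ≤ j → gprod (basis 3) 1 (x.1 i) (y.1 j) =
      PiNat.firstDiff (bw (bmk (basis 3) x)) (bw (bmk (basis 3) y)) := by
  have hne : wl x ≠ wl y := fun hc => h ((bmk_eq x y).2 ((wl_eq_iff x y).1 hc))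
  change ∃ N : ℕ, ∀ i j, N ≤ i → N ≤ j → gprod (basis 3) 1 (x.1 i) (y.1 j) =
      PiNat.firstDiff (wl x) (wl y)
  obtain ⟨N1, h1⟩ := le_gprod_of_agree (x := x) (y := y) (k := PiNat.firstDiff (wl x) (wl y))
    (fun n hn => PiNat.apply_eq_of_lt_firstDiff hn)
  obtain ⟨N2, h2⟩ := gprod_le_of_ne (PiNat.apply_firstDiff_ne hne)
  exact ⟨max N1 N2, fun i j hi hj => le_antisymm
    (h2 i j ((le_max_right _ _).trans hi) ((le_max_right _ _).trans hj))
    (h1 i j ((le_max_left _ _).trans hi) ((le_max_left _ _).trans hj))⟩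

open Classical in
/-- The visual metric `a ^ (-(ξ | η))`. -/
@[instance_reducible] noncomputable def vm {a : ℝ} (ha : 1 < a) : MetricSpace (Boundary (basis 3)) where
  dist ξ η := if ξ = η then 0 else a ^ (-(PiNat.firstDiff (bw ξ) (bw η) : ℝ))
  dist_self ξ := by simp
  dist_comm ξ η := by
    by_cases h : ξ = η
    · simp [h]
    · rw [if_neg h, if_neg (Ne.symm h), PiNat.firstDiff_comm]
  dist_triangle ξ η ζ := by
    have hpos : ∀ t : ℝ, 0 < a ^ t := fun t => Real.rpow_pos_of_pos (by linarith) t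
    by_cases h1 : ξ = ζ
    · rw [if_pos h1]
      split_ifs <;> positivity
    · rw [if_neg h1]
      by_cases h2 : ξ = η
      · subst h2
        rw [if_pos rfl, if_neg h1, zero_add]
      · by_cases h3 : η = ζ
        · subst h3
          rw [if_neg h2, if_pos rfl, add_zero]
        · rw [if_neg h2, if_neg h3]
          have hmin := PiNat.min_firstDiff_le (bw ξ) (bw η) (bw ζ) (fun hc => h1 (bw_inj hc))
          rcases min_le_iff.1 hmin with hh | hh
          · have : a ^ (-(PiNat.firstDiff (bw ξ) (bw ζ) : ℝ)) ≤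
                a ^ (-(PiNat.firstDiff (bw ξ) (bw η) : ℝ)) := by
              apply Real.rpow_le_rpow_of_exponent_le ha.le
              have : (PiNat.firstDiff (bw ξ) (bw η) : ℝ) ≤ PiNat.firstDiff (bw ξ) (bw ζ) := by
                exact_mod_cast hh
              linarith
            have := hpos (-(PiNat.firstDiff (bw η) (bw ζ) : ℝ))
            linarith
          · have : a ^ (-(PiNat.firstDiff (bw ξ) (bw ζ) : ℝ)) ≤
                a ^ (-(PiNat.firstDiff (bw η) (bw ζ) : ℝ)) := by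
              apply Real.rpow_le_rpow_of_exponent_le ha.le
              have : (PiNat.firstDiff (bw η) (bw ζ) : ℝ) ≤ PiNat.firstDiff (bw ξ) (bw ζ) := by
                exact_mod_cast hh
              linarith
            have := hpos (-(PiNat.firstDiff (bw ξ) (bw η) : ℝ))
            linarith
  eq_of_dist_eq_zero {ξ η} h := by
    by_contra hne
    have h' : (if ξ = η then (0 : ℝ) else a ^ (-(PiNat.firstDiff (bw ξ) (bw η) : ℝ))) = 0 := h
    rw [if_neg hne] at h'
    exact (Real.rpow_pos_of_pos (by linarith : (0 : ℝ) < a) _).ne' h'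

theorem vm_visual {a : ℝ} (ha : 1 < a) : IsVisualCayley (basis 3) a (vm ha) := by
  refine ⟨1, one_pos, fun x y hne => ?_⟩
  obtain ⟨N, hN⟩ := gprod_eq_firstDiff x y hne
  refine ⟨N, fun i j hi hj => ?_⟩
  have h1 : (vm ha).dist (bmk (basis 3) x) (bmk (basis 3) y) =
      a ^ (-(PiNat.firstDiff (bw (bmk (basis 3) x)) (bw (bmk (basis 3) y)) : ℝ)) := if_neg hne
  rw [hN i j hi hj, h1]
  simp

end Pool.Agent.W2helper1.CTL
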